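import Mathlib

/-!
# Evaluations of graded domains: one relation costs a fixed proportion of the dimensions
-/

set_option autoImplicit false

open Module

namespace Pool.Agent.Y123.MZ

section generic

variable {V : Type} [AddCommGroup V] [Module ℚ V]

/-- The sum of the first `n + 1` spaces. -/
noncomputable def UpTo (A : ℕ → Submodule ℚ V) (n : ℕ) : Submodule ℚ V := ⨆ j : Fin (n + 1), A j

/-- The sum of the first `n + 1` spaces is direct. -/
def Dir (A : ℕ → Submodule ℚ V) (n : ℕ) : Prop :=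
  ∀ z : ℕ → V, (∀ j ≤ n, z j ∈ A j) → (∑ j ∈ Finset.range (n + 1), z j) = 0 → ∀ j ≤ n, z j = 0

/-- The sum of the components. -/
noncomputable def sumMap (A : ℕ → Submodule ℚ V) (n : ℕ) : (∀ j : Fin (n + 1), A j) →ₗ[ℚ] V :=
  ∑ j : Fin (n + 1), (A j).subtype ∘ₗ LinearMap.proj j

theorem sumMap_apply (A : ℕ → Submodule ℚ V) (n : ℕ) (a : ∀ j : Fin (n + 1), A j) :
    sumMap A n a = ∑ j, (a j : V) := by
  simp [sumMap]

theorem range_sumMap (A : ℕ → Submodule ℚ V) (n : ℕ) : LinearMap.range (sumMap A n) = UpTo A n := by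
  classical
  apply le_antisymm
  · rintro _ ⟨a, rfl⟩
    rw [sumMap_apply]
    exact Submodule.sum_mem _ fun j _ =>
      (le_iSup (fun j : Fin (n + 1) => A (j : ℕ)) j : A (j : ℕ) ≤ UpTo A n) (a j).2
  · refine iSup_le fun j x hx => ⟨Pi.single j ⟨x, hx⟩, ?_⟩
    rw [sumMap_apply, Finset.sum_eq_single j]
    · simp
    · intro i _ hi
      rw [Pi.single_eq_of_ne hi]
      rfl
    · intro h
      exact absurd (Finset.mem_univ _) h

theorem sumMap_injective {A : ℕ → Submodule ℚ V} {n : ℕ} (h : Dir A n) :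
    Function.Injective (sumMap A n) := by
  rw [injective_iff_map_eq_zero]
  intro a ha
  rw [sumMap_apply] at ha
  have h1 := h (fun j => if hj : j < n + 1 then (a ⟨j, hj⟩ : V) else 0) (fun j hj => by
    simp only [dif_pos (Nat.lt_succ_iff.2 hj)]
    exact (a ⟨j, Nat.lt_succ_iff.2 hj⟩).2) (by
    rw [Finset.sum_range, ← ha]
    exact Finset.sum_congr rfl fun j _ => by rw [dif_pos j.2])
  funext j
  have h2 := h1 j (Nat.lt_succ_iff.1 j.2)
  simp only [dif_pos j.2] at h2
  exact Subtype.ext h2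

theorem finrank_upTo {A : ℕ → Submodule ℚ V} {n : ℕ} (h : Dir A n)
    (hf : ∀ j, FiniteDimensional ℚ (A j)) :
    finrank ℚ (UpTo A n) = ∑ j ∈ Finset.range (n + 1), finrank ℚ (A j) := by
  rw [← range_sumMap, LinearMap.finrank_range_of_inj (sumMap_injective h),
    Module.finrank_pi_fintype, Finset.sum_range]

theorem finite_upTo (A : ℕ → Submodule ℚ V) (n : ℕ) (hf : ∀ j, FiniteDimensional ℚ (A j)) :
    FiniteDimensional ℚ (UpTo A n) := by
  rw [← range_sumMap]
  infer_instance

theorem le_upTo (A : ℕ → Submodule ℚ V) {j n : ℕ} (h : j ≤ n) : A j ≤ UpTo A n :=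
  le_iSup (fun j : Fin (n + 1) => A (j : ℕ)) ⟨j, Nat.lt_succ_iff.2 h⟩

end generic

variable {H K : Type} [CommRing H] [Algebra ℚ H] [Field K] [Algebra ℚ K]

/-- `H` is graded by the `A n`, with `dim A n = d n`, and `φ` maps `A n` onto `Z n`. -/
structure Cover (A : ℕ → Submodule ℚ H) (φ : H →ₐ[ℚ] K) (Z : ℕ → Submodule ℚ K)
    (d : ℕ → ℕ) : Prop where
  mul_mem : ∀ i j, ∀ x ∈ A i, ∀ y ∈ A j, x * y ∈ A (i + j)
  direct : ∀ n, Dir A n
  finite : ∀ n, FiniteDimensional ℚ (A n)
  dim : ∀ n, finrank ℚ (A n) = d n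
  image : ∀ n, (A n).map φ.toLinearMap = Z n

variable {A : ℕ → Submodule ℚ H} {φ : H →ₐ[ℚ] K} {Z : ℕ → Submodule ℚ K} {d : ℕ → ℕ}

theorem upTo_mul (hc : ∀ i j, ∀ x ∈ A i, ∀ y ∈ A j, x * y ∈ A (i + j)) {M N : ℕ} {x y : H}
    (hx : x ∈ UpTo A M) (hy : y ∈ UpTo A N) : x * y ∈ UpTo A (M + N) := by
  have h1 : UpTo A M * UpTo A N ≤ UpTo A (M + N) := by
    unfold UpTo
    rw [Submodule.iSup_mul]
    refine iSup_le fun i => ?_
    rw [Submodule.mul_iSup]
    refine iSup_le fun j => ?_
    rw [Submodule.mul_le]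
    intro a ha b hb
    exact le_upTo A (by have := i.2; have := j.2; omega) (hc _ _ a ha b hb)
  exact h1 (Submodule.mul_mem_mul hx hy)

theorem map_upTo (h : Cover A φ Z d) (n : ℕ) : (UpTo A n).map φ.toLinearMap = UpTo Z n := by
  unfold UpTo
  rw [Submodule.map_iSup]
  exact iSup_congr fun j => h.image j

/-- The dimensions are right and the sum is direct up to the weight `N`. -/
def GoodUpTo (Z : ℕ → Submodule ℚ K) (d : ℕ → ℕ) (N : ℕ) : Prop :=
  (∀ j ≤ N, finrank ℚ (Z j) = d j) ∧ Dir Z N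

theorem exists_kernel (h : Cover A φ Z d) {N : ℕ} (hN : ¬ GoodUpTo Z d N) :
    ∃ x ∈ UpTo A N, x ≠ 0 ∧ φ x = 0 := by
  by_contra hcon
  push Not at hcon
  have hinj : ∀ x ∈ UpTo A N, φ x = 0 → x = 0 := fun x hx h0 => by
    by_contra hx0
    exact hcon x hx hx0 h0
  apply hN
  refine ⟨fun j hj => ?_, ?_⟩
  · have h1 : Function.Injective (φ.toLinearMap.domRestrict (A j)) := by
      rw [injective_iff_map_eq_zero]
      intro x hx
      exact Subtype.ext (hinj x (le_upTo A hj x.2) hx)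
    have h2 := LinearMap.finrank_range_of_inj h1
    rw [LinearMap.range_domRestrict, h.image, h.dim] at h2
    exact h2
  · intro z hz hs
    have h1 : ∀ j, ∃ a : H, (j ≤ N → a ∈ A j ∧ φ a = z j) ∧ (¬ j ≤ N → a = 0) := by
      intro j
      by_cases hj : j ≤ N
      · have h2 := hz j hj
        rw [← h.image, Submodule.mem_map] at h2
        obtain ⟨a, ha, ha'⟩ := h2
        exact ⟨a, fun _ => ⟨ha, ha'⟩, fun h => absurd hj h⟩
      · exact ⟨0, fun h => absurd h hj, fun _ => rfl⟩
    choose a ha _ using h1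
    have h3 : ∑ j ∈ Finset.range (N + 1), a j = 0 := by
      apply hinj
      · exact Submodule.sum_mem _ fun j hj =>
          le_upTo A (Nat.lt_succ_iff.1 (Finset.mem_range.1 hj))
            (ha j (Nat.lt_succ_iff.1 (Finset.mem_range.1 hj))).1
      · rw [map_sum, ← hs]
        exact Finset.sum_congr rfl fun j hj =>
          (ha j (Nat.lt_succ_iff.1 (Finset.mem_range.1 hj))).2
    intro j hj
    have h4 := h.direct N a (fun j hj => (ha j hj).1) h3 j hj
    rw [← (ha j hj).2, h4, map_zero]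

/-- If `x ≠ 0` in the kernel maps `B` into `C` by multiplication, the image of `C` is small. -/
theorem finrank_map_add_le [IsDomain H] {B C : Submodule ℚ H} [FiniteDimensional ℚ C] {x : H}
    (hx : x ≠ 0) (h0 : φ x = 0) (hBC : ∀ y ∈ B, x * y ∈ C) :
    finrank ℚ (C.map φ.toLinearMap) + finrank ℚ B ≤ finrank ℚ C := by
  have h1 := (φ.toLinearMap.domRestrict C).finrank_range_add_finrank_ker
  rw [LinearMap.range_domRestrict] at h1
  rw [← h1]
  refine Nat.add_le_add_left ?_ _
  let f : B →ₗ[ℚ] LinearMap.ker (φ.toLinearMap.domRestrict C) :=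
    { toFun := fun y => ⟨⟨x * y, hBC y y.2⟩, by
        change φ (x * y) = 0
        rw [map_mul, h0, zero_mul]⟩
      map_add' := fun a b => Subtype.ext (Subtype.ext (mul_add _ _ _))
      map_smul' := fun a b => Subtype.ext (Subtype.ext (mul_smul_comm _ _ _)) }
  refine LinearMap.finrank_le_finrank_of_injective (f := f) ?_
  rw [injective_iff_map_eq_zero]
  intro y hy
  have h3 : x * y = 0 :=
    congrArg (fun Q : LinearMap.ker (φ.toLinearMap.domRestrict C) => Q.1.1) hy
  exact Subtype.ext ((mul_eq_zero.1 h3).resolve_left hx)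

/-- The gap for the sums. -/
theorem gap_sum [IsDomain H] (h : Cover A φ Z d) {N : ℕ} (hN : ¬ GoodUpTo Z d N) (m : ℕ) :
    finrank ℚ (UpTo Z (N + m)) + ∑ j ∈ Finset.range (m + 1), d j ≤
      ∑ j ∈ Finset.range (N + m + 1), d j := by
  obtain ⟨x, hx, hx0, h0⟩ := exists_kernel h hN
  have : FiniteDimensional ℚ (UpTo A (N + m)) := finite_upTo A _ h.finite
  have h1 := finrank_map_add_le (B := UpTo A m) (C := UpTo A (N + m)) hx0 h0
    (fun y hy => upTo_mul h.mul_mem hx hy)
  rw [map_upTo h, finrank_upTo (h.direct _) h.finite, finrank_upTo (h.direct _) h.finite] at h1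
  simpa only [h.dim] using h1

/-- The gap for the single weights. -/
theorem gap_weight [IsDomain H] (h : Cover A φ Z d) {N : ℕ} (hN : finrank ℚ (Z N) ≠ d N) (m : ℕ) :
    finrank ℚ (Z (N + m)) + d m ≤ d (N + m) := by
  have hker : ∃ x ∈ A N, x ≠ 0 ∧ φ x = 0 := by
    by_contra hcon
    push Not at hcon
    apply hN
    have h1 : Function.Injective (φ.toLinearMap.domRestrict (A N)) := by
      rw [injective_iff_map_eq_zero]
      intro x hx
      by_contra hx0
      exact hcon x x.2 (fun h => hx0 (Subtype.ext h)) hx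
    have h2 := LinearMap.finrank_range_of_inj h1
    rw [LinearMap.range_domRestrict, h.image, h.dim] at h2
    exact h2
  obtain ⟨x, hx, hx0, h0⟩ := hker
  have := h.finite (N + m)
  have h1 := finrank_map_add_le (B := A m) (C := A (N + m)) hx0 h0
    (fun y hy => h.mul_mem _ _ x hx y hy)
  rw [h.image, h.dim, h.dim] at h1
  exact h1

theorem finite_Z (h : Cover A φ Z d) (n : ℕ) : FiniteDimensional ℚ (Z n) := by
  have := h.finite n
  rw [← h.image]
  infer_instance

theorem finrank_good (h : Cover A φ Z d) {N : ℕ} (hN : GoodUpTo Z d N) :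
    finrank ℚ (UpTo Z N) = ∑ j ∈ Finset.range (N + 1), d j := by
  rw [finrank_upTo hN.2 (finite_Z h)]
  exact Finset.sum_congr rfl fun j hj => hN.1 j (Nat.lt_succ_iff.1 (Finset.mem_range.1 hj))

end Pool.Agent.Y123.MZ
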