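import Pool.Agent.Y123.MZ.Cover

/-!
# Asymptotic forms of dimension conjectures, for general dimension sequences
-/

set_option autoImplicit false

open Module

namespace Pool.Agent.Y123.MZ

variable {H K : Type} [CommRing H] [Algebra ℚ H] [IsDomain H] [Field K] [Algebra ℚ K]
  {A : ℕ → Submodule ℚ H} {φ : H →ₐ[ℚ] K} {Z : ℕ → Submodule ℚ K} {d : ℕ → ℕ}

theorem real_gap' {a b c N : ℕ} (h1 : a + b ≤ c) (h2 : c ≤ 2 ^ N * b) :
    (a : ℝ) ≤ (1 - (1 / 2) ^ N) * c := by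
  have h1' : (a : ℝ) + b ≤ c := by exact_mod_cast h1
  have h2' : (c : ℝ) ≤ 2 ^ N * b := by exact_mod_cast h2
  have h3 : ((1 : ℝ) / 2) ^ N * c ≤ b := by
    rw [one_div, inv_pow, inv_mul_le_iff₀ (by positivity)]
    exact h2'
  linarith [h3]

/-- Both parts of the gap for single weights. -/
theorem gap_weight_real (h : Cover A φ Z d) (h2 : ∀ N m, d (N + m) ≤ 2 ^ N * d m) {N : ℕ}
    (hN : finrank ℚ (Z N) ≠ d N) (m : ℕ) :
    finrank ℚ (Z (N + m)) + d m ≤ d (N + m) ∧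
      (finrank ℚ (Z (N + m)) : ℝ) ≤ (1 - (1 / 2) ^ N) * d (N + m) :=
  ⟨gap_weight h hN m, real_gap' (gap_weight h hN m) (h2 N m)⟩

/-- Both parts of the gap for sums. -/
theorem gap_sum_real (h : Cover A φ Z d) (h2 : ∀ N m, d (N + m) ≤ 2 ^ N * d m) {N : ℕ}
    (hN : ¬ GoodUpTo Z d N) (m : ℕ) :
    finrank ℚ (UpTo Z (N + m)) + ∑ j ∈ Finset.range (m + 1), d j ≤
        ∑ j ∈ Finset.range (N + m + 1), d j := gap_sum h hN m

/-- The asymptotic form for single weights. -/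
theorem weight_iff_gen (h : Cover A φ Z d) (h1 : ∀ m, 1 ≤ d m)
    (h2 : ∀ N m, d (N + m) ≤ 2 ^ N * d m) : (∀ N, finrank ℚ (Z N) = d N) ↔
    ∀ ε : ℝ, 0 < ε → ∀ M, ∃ n ≥ M, (1 - ε) * d n ≤ finrank ℚ (Z n) := by
  constructor
  · intro hz ε hε M
    refine ⟨M, le_rfl, ?_⟩
    rw [hz M]
    have h3 : (0 : ℝ) ≤ d M := Nat.cast_nonneg _
    nlinarith
  · intro hz N
    by_contra hN
    obtain ⟨n, hn, h3⟩ := hz ((1 / 2) ^ (N + 1)) (by positivity) N
    obtain ⟨m, rfl⟩ := Nat.exists_eq_add_of_le hn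
    have h4 := (gap_weight_real h h2 hN m).2
    have h5 : (1 : ℝ) ≤ d (N + m) := by exact_mod_cast h1 (N + m)
    have h6 : (0 : ℝ) < (1 / 2) ^ N := by positivity
    have h7 : ((1 : ℝ) / 2) ^ (N + 1) = (1 / 2) ^ N / 2 := by rw [pow_succ]; ring
    rw [h7] at h3
    nlinarith

/-- The numbers `F_(n+1)`. -/
theorem fib_bound (N m : ℕ) : Nat.fib (N + m + 1) ≤ 2 ^ N * Nat.fib (m + 1) := by
  induction N with
  | zero => simp
  | succ N ih =>
    have h1 : Nat.fib (N + 1 + m + 1) ≤ 2 * Nat.fib (N + m + 1) := by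
      rw [show N + 1 + m + 1 = (N + m) + 2 by ring, Nat.fib_add_two]
      have := Nat.fib_le_fib_succ (n := N + m)
      omega
    rw [pow_succ]
    calc Nat.fib (N + 1 + m + 1) ≤ 2 * Nat.fib (N + m + 1) := h1
      _ ≤ 2 * (2 ^ N * Nat.fib (m + 1)) := Nat.mul_le_mul_left _ ih
      _ = 2 ^ N * 2 * Nat.fib (m + 1) := by ring

/-- The gap for sums of `d j = F_(j+1)`. -/
theorem sum_bound {d : ℕ → ℕ} (h1 : ∀ m, 1 ≤ d m) (h2 : ∀ N m, d (N + m) ≤ 2 ^ N * d m)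
    (h3 : ∀ n, d (n + 1) ≤ ∑ j ∈ Finset.range (n + 1), d j) (N m : ℕ) :
    ∑ j ∈ Finset.range (N + m + 1), d j ≤ 2 ^ N * ∑ j ∈ Finset.range (m + 1), d j := by
  induction N with
  | zero => simp
  | succ N ih =>
    rw [show N + 1 + m + 1 = N + m + 1 + 1 by ring, Finset.sum_range_succ, pow_succ]
    have h4 := h3 (N + m)
    calc ∑ j ∈ Finset.range (N + m + 1), d j + d (N + m + 1)
        ≤ 2 * ∑ j ∈ Finset.range (N + m + 1), d j := by omega
      _ ≤ 2 * (2 ^ N * ∑ j ∈ Finset.range (m + 1), d j) := Nat.mul_le_mul_left _ ih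
      _ = 2 ^ N * 2 * ∑ j ∈ Finset.range (m + 1), d j := by ring

/-- The asymptotic form for sums. -/
theorem sum_iff_gen (h : Cover A φ Z d) (h1 : ∀ m, 1 ≤ d m)
    (h4 : ∀ N m, ∑ j ∈ Finset.range (N + m + 1), d j ≤
      2 ^ N * ∑ j ∈ Finset.range (m + 1), d j) :
    (∀ N, finrank ℚ (Z N) = d N ∧ Dir Z N) ↔
    ∀ ε : ℝ, 0 < ε → ∀ M, ∃ n ≥ M,
      (1 - ε) * (∑ j ∈ Finset.range (n + 1), d j : ℕ) ≤ finrank ℚ (UpTo Z n) := by
  have hpos : ∀ n, 1 ≤ ∑ j ∈ Finset.range (n + 1), d j := fun n =>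
    (h1 0).trans (Finset.single_le_sum (f := d) (fun _ _ => Nat.zero_le _)
      (Finset.mem_range.2 (Nat.succ_pos n)))
  constructor
  · intro hz ε hε M
    refine ⟨M, le_rfl, ?_⟩
    rw [finrank_good h (N := M) ⟨fun j _ => (hz j).1, (hz M).2⟩]
    have h3 : (0 : ℝ) ≤ ((∑ j ∈ Finset.range (M + 1), d j : ℕ) : ℝ) := Nat.cast_nonneg _
    nlinarith
  · intro hz
    have hgood : ∀ N, GoodUpTo Z d N := by
      intro N
      by_contra hN
      obtain ⟨n, hn, h3⟩ := hz ((1 / 2) ^ (N + 1)) (by positivity) N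
      obtain ⟨m, rfl⟩ := Nat.exists_eq_add_of_le hn
      have h5 := real_gap' (gap_sum h hN m) (h4 N m)
      have h6 : (1 : ℝ) ≤ ((∑ j ∈ Finset.range (N + m + 1), d j : ℕ) : ℝ) := by
        exact_mod_cast hpos (N + m)
      have h7 : (0 : ℝ) < (1 / 2) ^ N := by positivity
      have h8 : ((1 : ℝ) / 2) ^ (N + 1) = (1 / 2) ^ N / 2 := by rw [pow_succ]; ring
      rw [h8] at h3
      nlinarith
    exact fun N => ⟨(hgood N).1 N le_rfl, (hgood N).2⟩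

/-- `F_(n+2) ≤ F_1 + ... + F_(n+1)`. -/
theorem fib_le_sum (n : ℕ) : Nat.fib (n + 1 + 1) ≤ ∑ j ∈ Finset.range (n + 1), Nat.fib (j + 1) := by
  induction n with
  | zero => decide
  | succ n ih =>
    rw [Finset.sum_range_succ]
    rw [show n + 1 + 1 + 1 = (n + 1) + 2 by ring, Nat.fib_add_two]
    have h1 : Nat.fib (n + 1) ≤ ∑ j ∈ Finset.range (n + 1), Nat.fib (j + 1) :=
      Finset.single_le_sum (f := fun j => Nat.fib (j + 1)) (fun _ _ => Nat.zero_le _)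
        (Finset.mem_range.2 (Nat.lt_succ_self n))
    omega

theorem fib_pos' (m : ℕ) : 1 ≤ Nat.fib (m + 1) := Nat.fib_pos.2 (Nat.succ_pos m)

end Pool.Agent.Y123.MZ
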