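import Pool.Agent.Y123.MZ.Sets

/-!
# Directness and linear independence over the field of ratios
-/

set_option autoImplicit false

open Polynomial Module

namespace Pool.Agent.Y123.MZ

open Pool.Agent.H447R2.MZ Pool.Agent.Y129.MZ

/-- `L` weights of the same parity. -/
theorem terms (L : ℕ) :
    ((∀ w, DirOn ((Finset.range L).image fun i => w + 2 * i)) ↔
      ∀ P : ratioField[X], P ≠ 0 → P.natDegree < L → aeval (Real.pi ^ 2) P ≠ 0) ∧
    ((∀ w, DirOn ((Finset.range L).image fun i => w + 2 * i)) ↔
      ∃ F : Finset ℕ, F.card = L ∧ (∀ f ∈ F, ∀ g ∈ F, f % 2 = g % 2) ∧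
        ∀ W₀, ∃ W ≥ W₀, DirOn (F.image (W + ·))) := by
  classical
  set F₀ : Finset ℕ := (Finset.range L).image (2 * ·) with hF₀
  have himg : ∀ w, (Finset.range L).image (fun i => w + 2 * i) = F₀.image (w + ·) := fun w => by
    rw [hF₀, Finset.image_image]
    rfl
  have hcard : F₀.card = L := by
    rw [hF₀, Finset.card_image_of_injective _ (fun a b h => by simpa using h), Finset.card_range]
  have h12 : (∀ w, DirOn ((Finset.range L).image fun i => w + 2 * i)) →
      ∃ F : Finset ℕ, F.card = L ∧ (∀ f ∈ F, ∀ g ∈ F, f % 2 = g % 2) ∧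
        ∀ W₀, ∃ W ≥ W₀, DirOn (F.image (W + ·)) := by
    intro h
    refine ⟨F₀, hcard, ?_, fun W₀ => ⟨W₀, le_rfl, ?_⟩⟩
    · intro f hf g hg
      obtain ⟨i, _, rfl⟩ := Finset.mem_image.1 hf
      obtain ⟨j, _, rfl⟩ := Finset.mem_image.1 hg
      simp
    · rw [← himg]
      exact h W₀
  have h23 : (∃ F : Finset ℕ, F.card = L ∧ (∀ f ∈ F, ∀ g ∈ F, f % 2 = g % 2) ∧
        ∀ W₀, ∃ W ≥ W₀, DirOn (F.image (W + ·))) →
      ∀ P : ratioField[X], P ≠ 0 → P.natDegree < L → aeval (Real.pi ^ 2) P ≠ 0 := by
    rintro ⟨F, hF, hpar, h⟩ P hP hdeg h0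
    obtain ⟨W₀, hW₀⟩ := key hP h0 (by rw [hF]; exact hdeg) hpar
    obtain ⟨W, hW, hd⟩ := h W₀
    exact hW₀ W hW hd
  have h31 : (∀ P : ratioField[X], P ≠ 0 → P.natDegree < L → aeval (Real.pi ^ 2) P ≠ 0) →
      ∀ w, DirOn ((Finset.range L).image fun i => w + 2 * i) := by
    intro h
    have heven : ∀ v, DirOn (F₀.image (2 * v + ·)) := by
      intro v z hz hs
      rw [Finset.sum_image (fun a _ b _ hab => by simpa using hab), hF₀,
        Finset.sum_image (fun a _ b _ hab => by simpa using hab)] at hs
      have hz' : ∀ i ∈ Finset.range L, z (2 * v + 2 * i) ∈ Zs (2 * (v + i)) := fun i hi => by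
        have := hz (2 * v + 2 * i) (Finset.mem_image_of_mem _ (Finset.mem_image_of_mem _ hi))
        rwa [← mul_add] at this ⊢
      let a : ℕ → ratioField := fun i => if hi : i ∈ Finset.range L then
        ⟨z (2 * v + 2 * i) / Real.pi ^ (2 * (v + i)), div_mem_ratio (hz' i hi) (pi_pow_mem _)⟩ else 0
      have ha : ∀ i ∈ Finset.range L, (a i : ℝ) = z (2 * v + 2 * i) / Real.pi ^ (2 * (v + i)) :=
        fun i hi => by simp only [a, dif_pos hi]
      let P : ratioField[X] := ∑ i ∈ Finset.range L, monomial i (a i)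
      have hPc : ∀ i ∈ Finset.range L, P.coeff i = a i := fun i hi => by
        simp only [P, finsetSum_coeff, coeff_monomial, Finset.sum_ite_eq', if_pos hi]
      have hP0 : P = 0 := by
        by_contra hP
        refine h P hP ?_ ?_
        · by_contra hdeg
          push Not at hdeg
          have h1 : P.coeff P.natDegree = 0 := by
            simp only [P, finsetSum_coeff, coeff_monomial, Finset.sum_ite_eq']
            rw [if_neg]
            rw [Finset.mem_range]
            exact not_lt.2 hdeg
          exact (leadingCoeff_ne_zero.2 hP) h1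
        · have h1 : aeval (Real.pi ^ 2) P * Real.pi ^ (2 * v) = 0 := by
            simp only [P, map_sum, aeval_monomial]
            rw [Finset.sum_mul, ← hs]
            refine Finset.sum_congr rfl fun i hi => ?_
            change (a i : ℝ) * (Real.pi ^ 2) ^ i * Real.pi ^ (2 * v) = _
            rw [ha i hi, ← pow_mul, mul_assoc, ← pow_add, show 2 * i + 2 * v = 2 * (v + i) by ring,
              div_mul_cancel₀ _ (pow_ne_zero _ Real.pi_ne_zero)]
          exact (mul_eq_zero.1 h1).resolve_right (pow_ne_zero _ Real.pi_ne_zero)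
      intro j hj
      obtain ⟨f, hf, rfl⟩ := Finset.mem_image.1 hj
      obtain ⟨i, hi, rfl⟩ := Finset.mem_image.1 hf
      have h1 := hPc i hi
      rw [hP0, coeff_zero] at h1
      have h2 := ha i hi
      rw [← h1] at h2
      have h3 : z (2 * v + 2 * i) / Real.pi ^ (2 * (v + i)) = 0 := h2.symm
      exact (div_eq_zero_iff.1 h3).resolve_right (pow_ne_zero _ Real.pi_ne_zero)
    intro w
    rw [himg]
    by_contra hw
    have h1 := propagate hw
    exact h1 (2 * (w + 2)) (by omega) (heven (w + 2))
  exact ⟨⟨fun h => h23 (h12 h), h31⟩, ⟨h12, fun h => h31 (h23 h)⟩⟩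

/-- The span of all multiple zeta values over the field of ratios. -/
noncomputable def KS : Submodule ratioField ℝ := Submodule.span ratioField {x | ∃ w, x ∈ Zs w}

/-- A relation of weights at most `p` bounds the dimension over the field of ratios. -/
theorem finite_KS {p : ℕ} (h : ¬ Direct p) :
    FiniteDimensional ratioField KS ∧ finrank ratioField KS ≤ 2 * p := by
  obtain ⟨P, hP, hdeg, h0⟩ := algebraic_of_not_direct h
  have hint : IsIntegral ratioField (Real.pi ^ 2) := IsAlgebraic.isIntegral ⟨P, hP, h0⟩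
  have hfd : FiniteDimensional ratioField (IntermediateField.adjoin ratioField {Real.pi ^ 2}) :=
    IntermediateField.adjoin.finiteDimensional hint
  have hfr : finrank ratioField (IntermediateField.adjoin ratioField {Real.pi ^ 2}) ≤ p := by
    rw [IntermediateField.adjoin.finrank hint]
    exact (natDegree_le_natDegree (minpoly.degree_le_of_ne_zero _ _ hP h0)).trans hdeg
  let A : Submodule ratioField ℝ :=
    Subalgebra.toSubmodule (IntermediateField.adjoin ratioField {Real.pi ^ 2}).toSubalgebra
  have hA : FiniteDimensional ratioField A := hfd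
  have hA' : finrank ratioField A ≤ p := hfr
  let B : Submodule ratioField ℝ := A.map (LinearMap.mulLeft ratioField z3)
  have hB' : finrank ratioField B ≤ p := (Submodule.finrank_map_le _ _).trans hA'
  have hpiA : ∀ i, Real.pi ^ (2 * i) ∈ A := fun i => by
    change Real.pi ^ (2 * i) ∈ IntermediateField.adjoin ratioField {Real.pi ^ 2}
    rw [pow_mul]
    exact pow_mem (IntermediateField.mem_adjoin_simple_self _ _) _
  have hle : KS ≤ A ⊔ B := by
    rw [KS, Submodule.span_le]
    rintro x ⟨w, hx⟩
    rcases Nat.even_or_odd' w with ⟨i, rfl | rfl⟩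
    · refine (le_sup_left : A ≤ A ⊔ B) ?_
      have h1 : x = (⟨x / Real.pi ^ (2 * i), div_mem_ratio hx (pi_pow_mem i)⟩ : ratioField) •
          Real.pi ^ (2 * i) := by
        change x = x / Real.pi ^ (2 * i) * Real.pi ^ (2 * i)
        rw [div_mul_cancel₀ _ (pow_ne_zero _ Real.pi_ne_zero)]
      rw [h1]
      exact A.smul_mem _ (hpiA i)
    · rcases Nat.eq_zero_or_pos i with rfl | hi
      · have h1 : x = 0 := Zs_one hx
        rw [h1]
        exact Submodule.zero_mem _
      · obtain ⟨i', rfl⟩ := Nat.exists_eq_add_of_le' hi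
        have h2 : x ∈ Zs (2 * i' + 3) := by
          rwa [show 2 * (i' + 1) + 1 = 2 * i' + 3 by ring] at hx
        refine (le_sup_right : B ≤ A ⊔ B) ?_
        have h1 : x = (⟨x / (Real.pi ^ (2 * i') * z3),
            div_mem_ratio h2 (mul_mem _ _ _ _ (pi_pow_mem i') z3_mem)⟩ : ratioField) •
              (z3 * Real.pi ^ (2 * i')) := by
          change x = x / (Real.pi ^ (2 * i') * z3) * (z3 * Real.pi ^ (2 * i'))
          rw [mul_comm z3, div_mul_cancel₀ _
            (mul_ne_zero (pow_ne_zero _ Real.pi_ne_zero) z3_pos.ne')]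
        rw [h1]
        exact B.smul_mem _ ⟨_, hpiA i', rfl⟩
  have hAB : FiniteDimensional ratioField (A ⊔ B : Submodule ratioField ℝ) := inferInstance
  refine ⟨Submodule.finiteDimensional_of_le hle, ?_⟩
  have h1 := Submodule.finrank_mono hle
  have h2 := Submodule.finrank_add_le_finrank_add_finrank A B
  omega

/-- If all sums are direct, nonzero elements of different weights are linearly independent over the
field of ratios. -/
theorem linearIndependent_of_direct (h : ∀ p, Direct p) {S : Set ℕ} {z : ℕ → ℝ}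
    (hz : ∀ w ∈ S, z w ∈ Zs w ∧ z w ≠ 0) : LinearIndependent ratioField (fun w : S => z w) := by
  classical
  rw [linearIndependent_iff']
  intro s c hc w hw
  let Q : ratioField[X] := ∑ v ∈ s, monomial (v : ℕ) (c v)
  have hQ : ∀ v ∈ s, Q.coeff v = c v := by
    intro v hv
    simp only [Q, finsetSum_coeff, coeff_monomial]
    rw [Finset.sum_eq_single v]
    · rw [if_pos rfl]
    · intro g _ hg
      rw [if_neg]
      intro h
      exact hg (Subtype.ext h)
    · intro h
      exact absurd hv h
  obtain ⟨V, y, hy, hy0, hyQ⟩ := exists_denom Q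
  set F : Finset ℕ := s.image (fun v : S => (v : ℕ)) with hF
  have hdir : DirOn (F.image (V + ·)) := dirSet_of_direct h Set.univ _ (Set.subset_univ _)
  have hinj : Set.InjOn (V + ·) (F : Set ℕ) := fun a _ b _ hab => by simpa using hab
  have h1 := hdir (fun j => y * (Q.coeff (j - V) : ℝ) * z (j - V)) (by
    intro j hj
    obtain ⟨f, hf, rfl⟩ := Finset.mem_image.1 hj
    obtain ⟨v, _, rfl⟩ := Finset.mem_image.1 hf
    have h2 := mul_mem _ _ _ _ (hyQ v) (hz v v.2).1
    rwa [show V + (v : ℕ) - V = v by omega]) (by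
    rw [Finset.sum_image hinj, hF, Finset.sum_image (fun a _ b _ hab => Subtype.ext hab)]
    have h2 : ∀ v ∈ s, y * (Q.coeff (V + (v : ℕ) - V) : ℝ) * z (V + (v : ℕ) - V) =
        y * (c v • z v) := by
      intro v hv
      rw [show V + (v : ℕ) - V = v by omega, hQ v hv, mul_assoc]
      rfl
    rw [Finset.sum_congr rfl h2, ← Finset.mul_sum, hc, mul_zero]) (V + (w : ℕ))
    (Finset.mem_image_of_mem _ (Finset.mem_image_of_mem _ hw))
  rw [show V + (w : ℕ) - V = w by omega, hQ w hw] at h1
  have h3 := (mul_eq_zero.1 h1).resolve_right (hz w w.2).2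
  have h4 := (mul_eq_zero.1 h3).resolve_left hy0
  exact Subtype.ext h4

/-- Directness and linear independence over the field of ratios. -/
theorem direct_iff {S : Set ℕ} (hS : S.Infinite) {z : ℕ → ℝ}
    (hz : ∀ w ∈ S, z w ∈ Zs w ∧ z w ≠ 0) :
    ((∀ p, Direct p) ↔ LinearIndependent ratioField (fun w : S => z w)) ∧
    ((∀ p, Direct p) ↔ ¬ FiniteDimensional ratioField (Submodule.span ratioField (z '' S))) := by
  have : Infinite S := hS.to_subtype
  have h1 : (∀ p, Direct p) → LinearIndependent ratioField (fun w : S => z w) := fun h =>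
    linearIndependent_of_direct h hz
  have h2 : LinearIndependent ratioField (fun w : S => z w) →
      ¬ FiniteDimensional ratioField (Submodule.span ratioField (z '' S)) := by
    intro hli hfd
    have hr : Set.range (fun w : S => z w) = z '' S := by
      ext x
      simp
    rw [← hr] at hfd
    have h3 := (linearIndependent_span hli).finite_of_isNoetherian
    exact not_finite S
  have h3 : ¬ FiniteDimensional ratioField (Submodule.span ratioField (z '' S)) →
      ∀ p, Direct p := by
    intro h p
    by_contra hp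
    apply h
    have h4 := (finite_KS hp).1
    refine Submodule.finiteDimensional_of_le (S₂ := KS) ?_
    rw [KS]
    refine Submodule.span_mono ?_
    rintro _ ⟨w, hw, rfl⟩
    exact ⟨w, (hz w hw).1⟩
  exact ⟨⟨h1, fun h => h3 (h2 h)⟩, ⟨fun h => h2 (h1 h), h3⟩⟩

end Pool.Agent.Y123.MZ
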