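import Pool.Agent.Y129.MZ.Ratio

/-!
# Directness of the sum of the weight spaces along sets of weights
-/

set_option autoImplicit false

open Polynomial

namespace Pool.Agent.Y123.MZ

open Pool.Agent.H447R2.MZ Pool.Agent.Y129.MZ

/-- The sum of the `Z_j`, `j` in `F`, is direct. -/
def DirOn (F : Finset ℕ) : Prop :=
  ∀ z : ℕ → ℝ, (∀ j ∈ F, z j ∈ Zs j) → (∑ j ∈ F, z j) = 0 → ∀ j ∈ F, z j = 0

theorem dirOn_range (p : ℕ) : DirOn (Finset.range (p + 1)) ↔ Direct p := by
  unfold DirOn Direct
  constructor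
  · intro h z hz hs j hj
    exact h z (fun j hj => hz j (by simpa [Nat.lt_succ_iff] using hj)) hs j (by
      simpa [Nat.lt_succ_iff] using hj)
  · intro h z hz hs j hj
    exact h z (fun j hj => hz j (by simpa [Nat.lt_succ_iff] using hj)) hs j (by
      simpa [Nat.lt_succ_iff] using hj)

theorem DirOn.mono {F G : Finset ℕ} (h : DirOn F) (hG : G ⊆ F) : DirOn G := by
  classical
  intro z hz hs j hj
  have h1 := h (fun j => if j ∈ G then z j else 0) (fun j _ => by
    by_cases hj : j ∈ G
    · simp only [if_pos hj]; exact hz j hj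
    · simp only [if_neg hj]; exact Submodule.zero_mem _) (by
    rw [← Finset.sum_filter, ← hs]
    refine Finset.sum_congr ?_ fun _ _ => rfl
    ext j
    simp only [Finset.mem_filter]
    exact ⟨fun h => h.2, fun h => ⟨hG h, h⟩⟩) j (hG hj)
  simpa only [if_pos hj] using h1

theorem exists_ne {m : ℕ} (hm : 2 ≤ m) : ∃ t ∈ Zs m, t ≠ 0 := by
  rcases Nat.even_or_odd' m with ⟨i, rfl | rfl⟩
  · exact ⟨_, pi_pow_mem i, pow_ne_zero _ Real.pi_ne_zero⟩
  · obtain ⟨i', rfl⟩ : ∃ i', i = i' + 1 := ⟨i - 1, by omega⟩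
    refine ⟨Real.pi ^ (2 * i') * z3, ?_, mul_ne_zero (pow_ne_zero _ Real.pi_ne_zero) z3_pos.ne'⟩
    have h := mul_mem _ _ _ _ (pi_pow_mem i') z3_mem
    rwa [show 2 * i' + 3 = 2 * (i' + 1) + 1 by ring] at h

/-- A relation along `V + F` propagates to `W + F` for all `W ≥ V + 2`. -/
theorem propagate {F : Finset ℕ} {V : ℕ} (h : ¬ DirOn (F.image (V + ·))) :
    ∀ W ≥ V + 2, ¬ DirOn (F.image (W + ·)) := by
  intro W hW hdir
  apply h
  intro z hz hs j hj
  obtain ⟨t, ht, ht0⟩ := exists_ne (m := W - V) (by omega)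
  obtain ⟨f, hf, rfl⟩ := Finset.mem_image.1 hj
  have hinj : ∀ U : ℕ, Set.InjOn (U + ·) (F : Set ℕ) := fun U a _ b _ hab => by
    simpa using hab
  rw [Finset.sum_image (hinj V)] at hs
  have h1 := hdir (fun j => t * z (j - (W - V))) (by
    intro j hj
    obtain ⟨g, hg, rfl⟩ := Finset.mem_image.1 hj
    have h2 := mul_mem _ _ _ _ ht (hz (V + g) (Finset.mem_image_of_mem _ hg))
    rw [show W + g - (W - V) = V + g by omega]
    rwa [show W - V + (V + g) = W + g by omega] at h2) (by
    rw [Finset.sum_image (hinj W)]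
    have : ∀ g ∈ F, t * z (W + g - (W - V)) = t * z (V + g) := fun g _ => by
      rw [show W + g - (W - V) = V + g by omega]
    rw [Finset.sum_congr rfl this, ← Finset.mul_sum, hs, mul_zero]) (W + f)
    (Finset.mem_image_of_mem _ hf)
  rw [show W + f - (W - V) = V + f by omega] at h1
  exact (mul_eq_zero.1 h1).resolve_left ht0

/-- If `π ^ 2` is a root of a nonzero polynomial over the field of ratios with degree smaller than the
number of elements of `F`, all of the same parity, then there is a relation along `W + F` for all large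
`W`. -/
theorem key {P : ratioField[X]} (hP : P ≠ 0) (h0 : aeval (Real.pi ^ 2) P = 0) {F : Finset ℕ}
    (hF : P.natDegree < F.card) (hpar : ∀ f ∈ F, ∀ g ∈ F, f % 2 = g % 2) :
    ∃ W₀, ∀ W ≥ W₀, ¬ DirOn (F.image (W + ·)) := by
  classical
  have hne : F.Nonempty := Finset.card_pos.1 (by omega)
  obtain ⟨f₀, hf₀⟩ := hne
  have hint : IsIntegral ratioField (Real.pi ^ 2) := IsAlgebraic.isIntegral ⟨P, hP, h0⟩
  let x : IntermediateField.adjoin ratioField {Real.pi ^ 2} :=
    IntermediateField.AdjoinSimple.gen ratioField (Real.pi ^ 2)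
  have : FiniteDimensional ratioField (IntermediateField.adjoin ratioField {Real.pi ^ 2}) :=
    IntermediateField.adjoin.finiteDimensional hint
  have hfr : Module.finrank ratioField (IntermediateField.adjoin ratioField {Real.pi ^ 2}) <
      Fintype.card F := by
    rw [IntermediateField.adjoin.finrank hint, Fintype.card_coe]
    exact lt_of_le_of_lt (natDegree_le_natDegree (minpoly.degree_le_of_ne_zero _ _ hP h0)) hF
  have hdep : ¬ LinearIndependent ratioField (fun f : F => x ^ ((f : ℕ) / 2)) := fun hli =>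
    absurd hli.fintype_card_le_finrank (by omega)
  rw [Fintype.not_linearIndependent_iff] at hdep
  obtain ⟨c, hc, ⟨f₁, hf₁⟩, hc1⟩ := hdep
  -- the relation in the real numbers
  have hrel : ∑ f : F, (c f : ℝ) * Real.pi ^ (2 * ((f : ℕ) / 2)) = 0 := by
    have h1 : ((∑ f : F, c f • x ^ ((f : ℕ) / 2) :
        IntermediateField.adjoin ratioField {Real.pi ^ 2}) : ℝ) = 0 := by
      rw [hc]
      rfl
    rw [← h1, IntermediateField.coe_sum]
    refine Finset.sum_congr rfl fun f _ => ?_
    rw [IntermediateField.coe_smul, IntermediateField.coe_pow, pow_mul]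
    rfl
  -- a common denominator
  let Q : ratioField[X] := ∑ f : F, monomial (f : ℕ) (c f)
  have hQ : ∀ f : F, Q.coeff f = c f := by
    intro f
    simp only [Q, finsetSum_coeff, coeff_monomial]
    rw [Finset.sum_eq_single f]
    · rw [if_pos rfl]
    · intro g _ hg
      rw [if_neg]
      intro h
      exact hg (Subtype.ext h)
    · intro h
      exact absurd (Finset.mem_univ _) h
  obtain ⟨V, y, hy, hy0, hyQ⟩ := exists_denom Q
  set r := f₀ % 2 with hr
  refine ⟨V + 2, fun W hW hdir => hc1 ?_⟩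
  obtain ⟨t, ht, ht0⟩ := exists_ne (m := W + r - V) (by omega)
  let z : ℕ → ℝ := fun j => t * (y * (Q.coeff (j - W) : ℝ) * Real.pi ^ (2 * ((j - W) / 2)))
  have hinj : Set.InjOn (W + ·) (F : Set ℕ) := fun a _ b _ hab => by simpa using hab
  have h1 := hdir z (by
    intro j hj
    obtain ⟨f, hf, rfl⟩ := Finset.mem_image.1 hj
    have h2 := mul_mem _ _ _ _ ht (mul_mem _ _ _ _ (hyQ f) (pi_pow_mem (f / 2)))
    have h3 : f % 2 = r := hpar f hf f₀ hf₀
    simp only [z]
    rw [show W + f - W = f by omega]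
    rwa [show W + r - V + (V + 2 * (f / 2)) = W + f by omega] at h2) (by
    rw [Finset.sum_image hinj]
    have h2 : ∀ f ∈ F, z (W + f) = t * y * ((Q.coeff f : ℝ) * Real.pi ^ (2 * (f / 2))) := by
      intro f _
      simp only [z]
      rw [show W + f - W = f by omega]
      ring
    rw [Finset.sum_congr rfl h2, ← Finset.mul_sum, ← Finset.sum_coe_sort F]
    have h3 : ∑ f : F, (Q.coeff (f : ℕ) : ℝ) * Real.pi ^ (2 * ((f : ℕ) / 2)) = 0 := by
      rw [← hrel]
      exact Finset.sum_congr rfl fun f _ => by rw [hQ f]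
    rw [h3, mul_zero]) (W + f₁) (Finset.mem_image_of_mem _ hf₁)
  simp only [z] at h1
  rw [show W + f₁ - W = f₁ by omega] at h1
  have h2 := (mul_eq_zero.1 h1).resolve_left ht0
  have h3 := (mul_eq_zero.1 h2).resolve_right (pow_ne_zero _ Real.pi_ne_zero)
  have h4 := (mul_eq_zero.1 h3).resolve_left hy0
  rw [← hQ ⟨f₁, hf₁⟩]
  exact Subtype.ext h4

/-- Along `S`. -/
def DirSet (S : Set ℕ) : Prop := ∀ F : Finset ℕ, (F : Set ℕ) ⊆ S → DirOn F

open Classical in
/-- If the sum up to the weight `p` is not direct, then the sets of weights with a direct sum are sparse,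
uniformly. -/
theorem sparse {p : ℕ} (h : ¬ Direct p) (N : ℕ) : ∃ M, ∀ S : Set ℕ, DirSet S → ∀ n ≥ M,
    ((Finset.range N).filter fun i => n + i ∈ S).card ≤ 2 * p := by
  obtain ⟨P, hP, hdeg, h0⟩ := algebraic_of_not_direct h
  have hex : ∀ F : Finset ℕ, ∃ W₀, (p < F.card → (∀ f ∈ F, ∀ g ∈ F, f % 2 = g % 2) →
      ∀ W ≥ W₀, ¬ DirOn (F.image (W + ·))) := by
    intro F
    by_cases hF : p < F.card ∧ ∀ f ∈ F, ∀ g ∈ F, f % 2 = g % 2
    · obtain ⟨W₀, hW₀⟩ := key hP h0 (lt_of_le_of_lt hdeg hF.1) hF.2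
      exact ⟨W₀, fun _ _ => hW₀⟩
    · exact ⟨0, fun h1 h2 => absurd ⟨h1, h2⟩ hF⟩
  choose W₀ hW₀ using hex
  refine ⟨(Finset.range N).powerset.sup W₀, fun S hS n hn => ?_⟩
  by_contra hcard
  push Not at hcard
  set A := (Finset.range N).filter fun i => n + i ∈ S with hA
  have hsplit : (A.filter fun i => i % 2 = 0).card + (A.filter fun i => ¬ i % 2 = 0).card =
      A.card := Finset.card_filter_add_card_filter_not _
  have main : ∀ F : Finset ℕ, F ⊆ A → p < F.card → (∀ f ∈ F, ∀ g ∈ F, f % 2 = g % 2) → False := by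
    intro F hFA hF hpar
    have hFr : F ∈ (Finset.range N).powerset := by
      rw [Finset.mem_powerset]
      exact hFA.trans (Finset.filter_subset _ _)
    have h1 : W₀ F ≤ n := (Finset.le_sup (f := W₀) hFr).trans hn
    refine hW₀ F hF hpar n h1 (hS _ ?_)
    intro j hj
    rw [Finset.mem_coe, Finset.mem_image] at hj
    obtain ⟨f, hf, rfl⟩ := hj
    exact (Finset.mem_filter.1 (hFA hf)).2
  by_cases h1 : p < (A.filter fun i => i % 2 = 0).card
  · exact main _ (Finset.filter_subset _ _) h1 fun f hf g hg => by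
      rw [(Finset.mem_filter.1 hf).2, (Finset.mem_filter.1 hg).2]
  · exact main (A.filter fun i => ¬ i % 2 = 0) (Finset.filter_subset _ _) (by omega)
      fun f hf g hg => by
        have h2 := (Finset.mem_filter.1 hf).2
        have h3 := (Finset.mem_filter.1 hg).2
        omega

theorem dirSet_of_direct (h : ∀ p, Direct p) (S : Set ℕ) : DirSet S := by
  intro F _
  have h1 := (dirOn_range (F.sup id)).2 (h _)
  refine h1.mono fun j hj => ?_
  rw [Finset.mem_range, Nat.lt_succ_iff]
  exact Finset.le_sup (f := id) hj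

open Classical in
/-- Sets with many elements in infinitely many short intervals. -/
theorem windows {S : Set ℕ} (hS : ∀ L, ∃ N, ∀ M, ∃ n ≥ M,
    L ≤ ((Finset.range N).filter fun i => n + i ∈ S).card) : (∀ p, Direct p) ↔ DirSet S := by
  refine ⟨fun h => dirSet_of_direct h S, fun h p => ?_⟩
  by_contra hp
  obtain ⟨N, hN⟩ := hS (2 * p + 1)
  obtain ⟨M, hM⟩ := sparse hp N
  obtain ⟨n, hn, h1⟩ := hN M
  have h2 := hM S h n hn
  omega

open Classical in
/-- Partitions of the set of weights. -/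
theorem partition (r : ℕ) (c : ℕ → Fin r) : (∀ p, Direct p) ↔ ∀ i, DirSet (c ⁻¹' {i}) := by
  refine ⟨fun h i => dirSet_of_direct h _, fun h p => ?_⟩
  by_contra hp
  obtain ⟨M, hM⟩ := sparse hp (r * (2 * p) + 1)
  have h1 : ∑ i : Fin r, ((Finset.range (r * (2 * p) + 1)).filter
      fun j => M + j ∈ c ⁻¹' {i}).card = r * (2 * p) + 1 := by
    have h2 := Finset.card_eq_sum_card_fiberwise (s := Finset.range (r * (2 * p) + 1))
      (t := (Finset.univ : Finset (Fin r))) (f := fun j => c (M + j)) (fun _ _ => Finset.mem_univ _)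
    rw [Finset.card_range] at h2
    refine Eq.trans (Finset.sum_congr rfl fun i _ => ?_) h2.symm
    congr 1
    ext j
    simp
  have h3 : ∑ i : Fin r, ((Finset.range (r * (2 * p) + 1)).filter
      fun j => M + j ∈ c ⁻¹' {i}).card ≤ ∑ _i : Fin r, 2 * p :=
    Finset.sum_le_sum fun i _ => hM _ (h i) M le_rfl
  rw [h1, Finset.sum_const, Finset.card_univ, Fintype.card_fin, smul_eq_mul] at h3
  omega

end Pool.Agent.Y123.MZ
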