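import Pool.Agent.Y123.MZ.Cover
import Pool.Agent.Y123.MZ.Sets

/-!
# Zagier's conjecture and its asymptotic form
-/

set_option autoImplicit false

open Module

namespace Pool.Agent.Y123.MZ

open Pool.Agent.H447R2.MZ Pool.Agent.Y129.MZ

/-- The numbers `1, 0, 1, 1, 1, 2, 2, 3, 4, 5, 7, ...`. -/
def zd : ℕ → ℕ
  | 0 => 1
  | 1 => 0
  | 2 => 1
  | (n + 3) => zd (n + 1) + zd n

theorem zd_add_three (n : ℕ) : zd (n + 3) = zd (n + 1) + zd n := by
  rw [zd]

theorem zd_pos : ∀ n, 1 ≤ zd (n + 2) := by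
  intro n
  induction n using Nat.strong_induction_on with
  | _ n ih =>
    rcases n with _ | _ | n
    · decide
    · decide
    · rw [show n + 2 + 2 = (n + 1) + 3 by ring, zd_add_three]
      have := ih n (by omega)
      rw [show n + 1 + 1 = n + 2 by ring]
      omega

theorem zd_succ_le : ∀ n, zd (n + 3) ≤ 2 * zd (n + 2) := by
  intro n
  induction n using Nat.strong_induction_on with
  | _ n ih =>
    rcases n with _ | _ | _ | n
    · decide
    · decide
    · decide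
    · have h1 : zd (n + 3) ≤ 2 * zd (n + 2) := ih n (by omega)
      have h2 : zd (n + 4) ≤ 2 * zd (n + 3) := ih (n + 1) (by omega)
      have e1 : zd (n + 6) = zd (n + 4) + zd (n + 3) := zd_add_three (n + 3)
      have e2 : zd (n + 5) = zd (n + 3) + zd (n + 2) := zd_add_three (n + 2)
      change zd (n + 6) ≤ 2 * zd (n + 5)
      rw [e1, e2]
      omega

theorem zd_add_le (m N : ℕ) : zd (m + 2 + N) ≤ 2 ^ N * zd (m + 2) := by
  induction N with
  | zero => simp
  | succ N ih =>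
    have h1 := zd_succ_le (m + N)
    rw [show m + 2 + (N + 1) = m + N + 3 by ring, pow_succ]
    rw [show m + 2 + N = m + N + 2 by ring] at ih
    calc zd (m + N + 3) ≤ 2 * zd (m + N + 2) := h1
      _ ≤ 2 * (2 ^ N * zd (m + 2)) := Nat.mul_le_mul_left _ ih
      _ = 2 ^ N * 2 * zd (m + 2) := by ring

/-- The sums of the Zagier numbers. -/
def zS (n : ℕ) : ℕ := ∑ j ∈ Finset.range (n + 1), zd j

theorem zS_succ (n : ℕ) : zS (n + 1) = zS n + zd (n + 1) := by
  rw [zS, Finset.sum_range_succ, zS]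

theorem zd_le_zS (n : ℕ) : zd n ≤ zS n := by
  rw [zS, Finset.sum_range_succ]
  exact Nat.le_add_left _ _

theorem zS_succ_le (n : ℕ) : zS (n + 1) ≤ 2 * zS n := by
  rw [zS_succ]
  have h : zd (n + 1) ≤ zS n := by
    rcases n with _ | _ | n
    · decide
    · decide
    · rw [show n + 2 + 1 = n + 3 by ring, zd_add_three, zS_succ, zS_succ]
      have := zd_le_zS n
      omega
  omega

theorem zS_add_le (m N : ℕ) : zS (N + m) ≤ 2 ^ N * zS m := by
  induction N with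
  | zero => simp
  | succ N ih =>
    rw [show N + 1 + m = N + m + 1 by ring, pow_succ]
    calc zS (N + m + 1) ≤ 2 * zS (N + m) := zS_succ_le _
      _ ≤ 2 * (2 ^ N * zS m) := Nat.mul_le_mul_left _ ih
      _ = 2 ^ N * 2 * zS m := by ring

theorem zS_pos (n : ℕ) : 1 ≤ zS n := by
  induction n with
  | zero => decide
  | succ n ih => rw [zS_succ]; omega

/-- Zagier's conjecture up to the weight `N`. -/
theorem dir_iff (n : ℕ) : Dir Zs n ↔ Direct n := Iff.rfl

variable {H : Type} [CommRing H] [Algebra ℚ H] [IsDomain H] {A : ℕ → Submodule ℚ H}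
  {φ : H →ₐ[ℚ] ℝ}

theorem real_gap {a b c N : ℕ} (h1 : a + b ≤ c) (h2 : c ≤ 2 ^ N * b) :
    (a : ℝ) ≤ (1 - (1 / 2) ^ N) * c := by
  have h1' : (a : ℝ) + b ≤ c := by exact_mod_cast h1
  have h2' : (c : ℝ) ≤ 2 ^ N * b := by exact_mod_cast h2
  have h3 : ((1 : ℝ) / 2) ^ N * c ≤ b := by
    rw [one_div, inv_pow, inv_mul_le_iff₀ (by positivity)]
    exact h2'
  linarith [h3]

/-- The gap. -/
theorem zagier_gap (h : Cover A φ Zs zd) {N : ℕ} (hN : ¬ GoodUpTo Zs zd N) (m : ℕ) :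
    finrank ℚ (UpTo Zs (N + m)) + zS m ≤ zS (N + m) ∧
    (finrank ℚ (UpTo Zs (N + m)) : ℝ) ≤ (1 - (1 / 2) ^ N) * zS (N + m) := by
  have h1 := gap_sum h hN m
  exact ⟨h1, real_gap h1 (zS_add_le m N)⟩

theorem zagier_weight_gap (h : Cover A φ Zs zd) {N : ℕ} (hN : finrank ℚ (Zs N) ≠ zd N) (m : ℕ) :
    finrank ℚ (Zs (N + m)) + zd m ≤ zd (N + m) := gap_weight h hN m

/-- The asymptotic form for the sums. -/
theorem zagier_iff (h : Cover A φ Zs zd) : (∀ N, finrank ℚ (Zs N) = zd N ∧ Direct N) ↔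
    ∀ ε : ℝ, 0 < ε → ∀ M, ∃ n ≥ M, (1 - ε) * zS n ≤ finrank ℚ (UpTo Zs n) := by
  constructor
  · intro hz ε hε M
    refine ⟨M, le_rfl, ?_⟩
    rw [finrank_good h (N := M) ⟨fun j _ => (hz j).1, (hz M).2⟩]
    have h1 : (0 : ℝ) ≤ zS M := Nat.cast_nonneg _
    change (1 - ε) * zS M ≤ ((zS M : ℕ) : ℝ)
    nlinarith
  · intro hz
    have hgood : ∀ N, GoodUpTo Zs zd N := by
      intro N
      by_contra hN
      obtain ⟨n, hn, h1⟩ := hz ((1 / 2) ^ (N + 1)) (by positivity) N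
      obtain ⟨m, rfl⟩ := Nat.exists_eq_add_of_le hn
      have h2 := (zagier_gap h hN m).2
      have h3 : (1 : ℝ) ≤ zS (N + m) := by exact_mod_cast zS_pos (N + m)
      have h4 : (0 : ℝ) < (1 / 2) ^ N := by positivity
      have h5 : ((1 : ℝ) / 2) ^ (N + 1) = (1 / 2) ^ N / 2 := by rw [pow_succ]; ring
      rw [h5] at h1
      nlinarith
    exact fun N => ⟨(hgood N).1 N le_rfl, (hgood N).2⟩

theorem all_of_infinitely (h : Cover A φ Zs zd)
    (hz : ∀ ε : ℝ, 0 < ε → ∀ M, ∃ n ≥ M, (1 - ε) * zd n ≤ finrank ℚ (Zs n)) (N : ℕ) :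
    finrank ℚ (Zs N) = zd N := by
  by_contra hN
  obtain ⟨n, hn, h1⟩ := hz ((1 / 2) ^ (N + 1)) (by positivity) (N + 2)
  obtain ⟨m, rfl⟩ := Nat.exists_eq_add_of_le hn
  have h2 := zagier_weight_gap h hN (m + 2)
  have h3 := real_gap h2 (by
    have := zd_add_le m N
    rwa [show m + 2 + N = N + (m + 2) by ring] at this)
  have h4 : (1 : ℝ) ≤ zd (N + (m + 2)) := by
    have := zd_pos (N + m)
    rw [show N + m + 2 = N + (m + 2) by ring] at this
    exact_mod_cast this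
  have h5 : (0 : ℝ) < (1 / 2) ^ N := by positivity
  have h6 : ((1 : ℝ) / 2) ^ (N + 1) = (1 / 2) ^ N / 2 := by rw [pow_succ]; ring
  rw [h6, show N + 2 + m = N + (m + 2) by ring] at h1
  nlinarith

/-- The asymptotic form for the single weights. -/
theorem weight_iff (h : Cover A φ Zs zd) : (∀ N, finrank ℚ (Zs N) = zd N) ↔
    ∀ ε : ℝ, 0 < ε → ∀ M, ∃ n ≥ M, (1 - ε) * zd n ≤ finrank ℚ (Zs n) := by
  refine ⟨fun hz ε hε M => ⟨M, le_rfl, ?_⟩, all_of_infinitely h⟩
  rw [hz M]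
  have h1 : (0 : ℝ) ≤ zd M := Nat.cast_nonneg _
  nlinarith

open Classical in
/-- Zagier's conjecture follows from its case of the weights in a set with rich windows. -/
theorem zagier_along (h : Cover A φ Zs zd) {S : Set ℕ}
    (hS : ∀ L, ∃ N, ∀ M, ∃ n ≥ M, L ≤ ((Finset.range N).filter fun i => n + i ∈ S).card) :
    (∀ N, finrank ℚ (Zs N) = zd N ∧ Direct N) ↔
      (∀ N ∈ S, finrank ℚ (Zs N) = zd N) ∧ DirSet S := by
  constructor
  · intro hz
    exact ⟨fun N _ => (hz N).1, (windows hS).1 fun p => (hz p).2⟩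
  · rintro ⟨h1, h2⟩ N
    refine ⟨all_of_infinitely h (fun ε hε M => ?_) N, (windows hS).2 h2 N⟩
    obtain ⟨N', hN'⟩ := hS 1
    obtain ⟨n, hn, hc⟩ := hN' M
    obtain ⟨i, hi⟩ := Finset.card_pos.1 hc
    have hi' := (Finset.mem_filter.1 hi).2
    refine ⟨n + i, by omega, ?_⟩
    rw [h1 _ hi']
    have h3 : (0 : ℝ) ≤ zd (n + i) := Nat.cast_nonneg _
    nlinarith

end Pool.Agent.Y123.MZ
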